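import Pool.Agent.Helper98.QR.StmtsC

/-!
# Taylor expansion of the generating functions (row C08)
-/

namespace QR79

open QR

noncomputable section

/-- coefficients of `Q_l` -/
def q0 (l : ℝ) : ℝ := (l + 1) * (l + 2) / 2
def q1 (l : ℝ) : ℝ := l * (l + 1) * (l + 2) * (l + 3) / 24
def q2 (l : ℝ) : ℝ := (l - 1) * l * (l + 1) * (l + 2) * (l + 3) * (l + 4) / 720
def q3 (l : ℝ) : ℝ :=
  (l - 2) * (l - 1) * l * (l + 1) * (l + 2) * (l + 3) * (l + 4) * (l + 5) / 40320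

theorem Qf_taylor (l : ℕ) :
    ∃ B : ℝ, 0 ≤ B ∧ ∀ z : ℝ, 0 ≤ z → z ≤ 6 →
      |Qf z l - (q0 l + q1 l * z + q2 l * z ^ 2 + q3 l * z ^ 3)| ≤ B * z ^ 4 := by
  induction l using Nat.strong_induction_on with
  | _ l ih =>
    match l with
    | 0 =>
      refine ⟨0, le_rfl, fun z hz hz' => ?_⟩
      have : Qf z 0 = 1 := rfl
      rw [this]
      simp [q0, q1, q2, q3]
    | 1 =>
      refine ⟨0, le_rfl, fun z hz hz' => ?_⟩
      have : Qf z 1 = z + 3 := rfl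
      rw [this]
      have h : z + 3 - (q0 (1 : ℕ) + q1 (1 : ℕ) * z + q2 (1 : ℕ) * z ^ 2 + q3 (1 : ℕ) * z ^ 3)
          = 0 := by
        unfold q0 q1 q2 q3
        push_cast
        ring
      rw [h]
      simp
    | n + 2 =>
      obtain ⟨B1, hB1, h1⟩ := ih (n + 1) (by omega)
      obtain ⟨B0, hB0, h0⟩ := ih n (by omega)
      refine ⟨8 * B1 + B0 + |q3 (n + 1)|, by positivity, fun z hz hz' => ?_⟩
      have e1 := h1 z hz hz'
      have e0 := h0 z hz hz'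
      have hQ : Qf z (n + 2) = (z + 2) * Qf z (n + 1) - Qf z n + 1 := rfl
      rw [hQ]
      set E1 := Qf z (n + 1) - (q0 ((n + 1 : ℕ) : ℝ) + q1 ((n + 1 : ℕ) : ℝ) * z
        + q2 ((n + 1 : ℕ) : ℝ) * z ^ 2 + q3 ((n + 1 : ℕ) : ℝ) * z ^ 3) with hE1
      set E0 := Qf z n - (q0 (n : ℝ) + q1 (n : ℝ) * z
        + q2 (n : ℝ) * z ^ 2 + q3 (n : ℝ) * z ^ 3) with hE0
      have key : (z + 2) * Qf z (n + 1) - Qf z n + 1
          - (q0 ((n + 2 : ℕ) : ℝ) + q1 ((n + 2 : ℕ) : ℝ) * z + q2 ((n + 2 : ℕ) : ℝ) * z ^ 2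
            + q3 ((n + 2 : ℕ) : ℝ) * z ^ 3)
          = (z + 2) * E1 - E0 + q3 (n + 1) * z ^ 4 := by
        rw [hE1, hE0]
        unfold q0 q1 q2 q3
        push_cast
        ring
      rw [key]
      have hz4 : 0 ≤ z ^ 4 := by positivity
      calc |(z + 2) * E1 - E0 + q3 (n + 1) * z ^ 4|
          ≤ |(z + 2) * E1 - E0| + |q3 (n + 1) * z ^ 4| := abs_add_le _ _
        _ ≤ |(z + 2) * E1| + |E0| + |q3 (n + 1) * z ^ 4| := by
            have := abs_sub ((z + 2) * E1) E0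
            linarith
        _ = (z + 2) * |E1| + |E0| + |q3 (n + 1)| * z ^ 4 := by
            rw [abs_mul, abs_mul, abs_of_nonneg (show (0 : ℝ) ≤ z + 2 by linarith),
              abs_of_nonneg hz4]
        _ ≤ 8 * (B1 * z ^ 4) + B0 * z ^ 4 + |q3 (n + 1)| * z ^ 4 := by
            have h3 : (z + 2) * |E1| ≤ 8 * (B1 * z ^ 4) := by
              apply mul_le_mul (by linarith) e1 (abs_nonneg _) (by norm_num)
            linarith
        _ = (8 * B1 + B0 + |q3 (n + 1)|) * z ^ 4 := by ring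

/-- the polynomial identity -/
theorem poly_id (l : ℕ) (h H y w z e : ℝ) (hw : w = 1 - y) (hz : z * w = 6 * y)
    (hh : h = (2 * ((3 * q0 l - 12 * q1 l + 36 * q2 l) - 3)
      - ((6 * q1 l - 3 * q0 l) + (3 * q0 l - 12 * q1 l + 36 * q2 l)) * Aw l) / q0 l)
    (hH : H = H3 l) :
    w ^ 3 * (2 * ((q0 l + q1 l * z + q2 l * z ^ 2 + q3 l * z ^ 3 + e) - 1)
      - (1 + y) * (q0 l + q1 l * z + q2 l * z ^ 2 + q3 l * z ^ 3 + e)
        * (Aw l + h * y ^ 2 + H * y ^ 3))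
      = -(y ^ 4 * ((-q0 l + 6 * q1 l - 36 * q2 l + 216 * q3 l) * Aw l
          + ((6 * q1 l - 3 * q0 l) + (3 * q0 l - 12 * q1 l + 36 * q2 l)) * h
          + (q0 l + (6 * q1 l - 3 * q0 l)) * H
        + (((3 * q0 l - 12 * q1 l + 36 * q2 l) + (-q0 l + 6 * q1 l - 36 * q2 l + 216 * q3 l)) * h
          + ((6 * q1 l - 3 * q0 l) + (3 * q0 l - 12 * q1 l + 36 * q2 l)) * H) * y
        + ((-q0 l + 6 * q1 l - 36 * q2 l + 216 * q3 l) * h
          + ((3 * q0 l - 12 * q1 l + 36 * q2 l) + (-q0 l + 6 * q1 l - 36 * q2 l + 216 * q3 l)) * H)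
            * y ^ 2
        + (-q0 l + 6 * q1 l - 36 * q2 l + 216 * q3 l) * H * y ^ 3))
        + w ^ 3 * e * (2 - (1 + y) * (Aw l + h * y ^ 2 + H * y ^ 3)) := by
  set N : ℝ := q0 l * w ^ 3 + q1 l * (6 * y) * w ^ 2 + q2 l * (6 * y) ^ 2 * w
    + q3 l * (6 * y) ^ 3 with hN
  have hNz : w ^ 3 * (q0 l + q1 l * z + q2 l * z ^ 2 + q3 l * z ^ 3) = N := by
    rw [hN, ← hz]
    ring
  have hl1 : (l : ℝ) + 1 ≠ 0 := by positivity
  have hl2 : (l : ℝ) + 2 ≠ 0 := by positivity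
  have hq0 : q0 (l : ℝ) ≠ 0 := by
    unfold q0
    positivity
  -- the four vanishing coefficients
  have c0 : 2 * (q0 l - 1) - q0 l * Aw l = 0 := by
    unfold q0 Aw
    push_cast
    field_simp
    ring
  have c1 : 2 * ((6 * q1 l - 3 * q0 l) + 3) - (q0 l + (6 * q1 l - 3 * q0 l)) * Aw l = 0 := by
    unfold q0 q1 Aw
    push_cast
    field_simp
    ring
  have c2 : 2 * ((3 * q0 l - 12 * q1 l + 36 * q2 l) - 3)
      - (((6 * q1 l - 3 * q0 l) + (3 * q0 l - 12 * q1 l + 36 * q2 l)) * Aw l + q0 l * h) = 0 := by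
    rw [hh]
    field_simp
    ring
  have c3 : 2 * ((-q0 l + 6 * q1 l - 36 * q2 l + 216 * q3 l) + 1)
      - (((3 * q0 l - 12 * q1 l + 36 * q2 l) + (-q0 l + 6 * q1 l - 36 * q2 l + 216 * q3 l)) * Aw l
        + (q0 l + (6 * q1 l - 3 * q0 l)) * h + q0 l * H) = 0 := by
    rw [hh, hH]
    unfold q0 q1 q2 q3 Aw H3
    push_cast
    field_simp
    ring
  have hmain : w ^ 3 * (2 * ((q0 l + q1 l * z + q2 l * z ^ 2 + q3 l * z ^ 3 + e) - 1)
      - (1 + y) * (q0 l + q1 l * z + q2 l * z ^ 2 + q3 l * z ^ 3 + e)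
        * (Aw l + h * y ^ 2 + H * y ^ 3))
      = 2 * (N - w ^ 3) - (1 + y) * N * (Aw l + h * y ^ 2 + H * y ^ 3)
        + w ^ 3 * e * (2 - (1 + y) * (Aw l + h * y ^ 2 + H * y ^ 3)) := by
    rw [← hNz]
    ring
  rw [hmain, hN, hw]
  linear_combination c0 + y * c1 + y ^ 2 * c2 + y ^ 3 * c3

end

end QR79

namespace QR

open QR79

theorem st_C08 (h06 : ST_C06) : ST_C08 := by
  intro l
  obtain ⟨B, hB, hT⟩ := Qf_taylor l
  set n1 : ℝ := 6 * q1 l - 3 * q0 l with hn1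
  set n2 : ℝ := 3 * q0 l - 12 * q1 l + 36 * q2 l with hn2
  set n3 : ℝ := -q0 l + 6 * q1 l - 36 * q2 l + 216 * q3 l with hn3
  set h : ℝ := (2 * (n2 - 3) - (n1 + n2) * Aw l) / q0 l with hh
  set H : ℝ := H3 l with hH
  set A : ℝ := Aw l with hA
  set c4 : ℝ := n3 * A + (n1 + n2) * h + (q0 l + n1) * H with hc4
  set c5 : ℝ := (n2 + n3) * h + (n1 + n2) * H with hc5
  set c6 : ℝ := n3 * h + (n2 + n3) * H with hc6
  set c7 : ℝ := n3 * H with hc7
  refine ⟨h, 8 * ((|c4| + |c5| + |c6| + |c7|)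
    + B * 20736 * (2 + 2 * (|A| + |h| + |H|))), fun y hy hy' => ?_⟩
  set w : ℝ := 1 - y with hw
  have hw1 : 1 / 2 ≤ w := by rw [hw]; linarith
  have hw2 : w ≤ 1 := by rw [hw]; linarith
  have hwpos : 0 < w := by linarith
  set z : ℝ := 6 * y / (1 - y) with hz
  have hzw : z * w = 6 * y := by
    have hw0 : (1 : ℝ) - y ≠ 0 := by rw [← hw]; exact hwpos.ne'
    rw [hz, hw]
    exact div_mul_cancel₀ _ hw0
  have hz0 : 0 ≤ z := by
    rw [hz, ← hw]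
    positivity
  have hz12 : z ≤ 12 * y := by
    rw [hz, ← hw, div_le_iff₀ hwpos]
    nlinarith
  have hz6 : z ≤ 6 := by linarith
  have hQ1 : 1 ≤ Qf z l := (h06 y hy (by linarith)).1 l
  set Q : ℝ := Qf z l with hQ
  have hTz := hT z hz0 hz6
  rw [← hQ] at hTz
  set e : ℝ := Q - (q0 l + q1 l * z + q2 l * z ^ 2 + q3 l * z ^ 3) with he
  have hQe : q0 l + q1 l * z + q2 l * z ^ 2 + q3 l * z ^ 3 + e = Q := by rw [he]; ring
  have hid := poly_id l h H y w z e hw hzw hh hH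
  rw [hQe, ← hn1, ← hn2, ← hn3, ← hA, ← hc4, ← hc5, ← hc6, ← hc7] at hid
  set F : ℝ := 2 * (Q - 1) - (1 + y) * Q * (A + h * y ^ 2 + H * y ^ 3) with hF
  have hy4 : 0 ≤ y ^ 4 := by positivity
  have hy1 : y ≤ 1 := by linarith
  have hpow : ∀ n : ℕ, |y ^ n| ≤ 1 := by
    intro n
    rw [abs_of_nonneg (by positivity)]
    exact pow_le_one₀ hy hy1
  have hbr : |c4 + c5 * y + c6 * y ^ 2 + c7 * y ^ 3| ≤ |c4| + |c5| + |c6| + |c7| := by
    have t1 := abs_add_le (c4 + c5 * y + c6 * y ^ 2) (c7 * y ^ 3)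
    have t2 := abs_add_le (c4 + c5 * y) (c6 * y ^ 2)
    have t3 := abs_add_le c4 (c5 * y)
    have s1 : |c5 * y| ≤ |c5| := by
      rw [abs_mul]
      have := hpow 1
      rw [pow_one] at this
      exact mul_le_of_le_one_right (abs_nonneg _) this
    have s2 : |c6 * y ^ 2| ≤ |c6| := by
      rw [abs_mul]
      exact mul_le_of_le_one_right (abs_nonneg _) (hpow 2)
    have s3 : |c7 * y ^ 3| ≤ |c7| := by
      rw [abs_mul]
      exact mul_le_of_le_one_right (abs_nonneg _) (hpow 3)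
    linarith
  have hTb : |A + h * y ^ 2 + H * y ^ 3| ≤ |A| + |h| + |H| := by
    have t2 := abs_add_le (A + h * y ^ 2) (H * y ^ 3)
    have t3 := abs_add_le A (h * y ^ 2)
    have s2 : |h * y ^ 2| ≤ |h| := by
      rw [abs_mul]
      exact mul_le_of_le_one_right (abs_nonneg _) (hpow 2)
    have s3 : |H * y ^ 3| ≤ |H| := by
      rw [abs_mul]
      exact mul_le_of_le_one_right (abs_nonneg _) (hpow 3)
    linarith
  have hfac : |2 - (1 + y) * (A + h * y ^ 2 + H * y ^ 3)| ≤ 2 + 2 * (|A| + |h| + |H|) := by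
    have t1 := abs_sub (2 : ℝ) ((1 + y) * (A + h * y ^ 2 + H * y ^ 3))
    rw [abs_mul, abs_of_nonneg (show (0 : ℝ) ≤ 1 + y by linarith),
      abs_of_nonneg (show (0 : ℝ) ≤ 2 by norm_num)] at t1
    have t2 : (1 + y) * |A + h * y ^ 2 + H * y ^ 3| ≤ 2 * (|A| + |h| + |H|) := by
      apply mul_le_mul (by linarith) hTb (abs_nonneg _) (by norm_num)
    linarith
  have heb : |e| ≤ B * (20736 * y ^ 4) := by
    refine hTz.trans ?_
    apply mul_le_mul_of_nonneg_left _ hB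
    have : z ^ 4 ≤ (12 * y) ^ 4 := pow_le_pow_left₀ hz0 hz12 4
    calc z ^ 4 ≤ (12 * y) ^ 4 := this
      _ = 20736 * y ^ 4 := by ring
  have hw3 : 0 ≤ w ^ 3 := by positivity
  have hw3' : w ^ 3 ≤ 1 := pow_le_one₀ hwpos.le hw2
  have hw38 : 1 / 8 ≤ w ^ 3 := by
    have : (1 / 2 : ℝ) ^ 3 ≤ w ^ 3 := pow_le_pow_left₀ (by norm_num) hw1 3
    calc (1 / 8 : ℝ) = (1 / 2) ^ 3 := by norm_num
      _ ≤ w ^ 3 := this
  have hwF : |w ^ 3 * F| ≤ y ^ 4 * ((|c4| + |c5| + |c6| + |c7|)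
      + B * 20736 * (2 + 2 * (|A| + |h| + |H|))) := by
    rw [hid]
    have t1 := abs_add_le (-(y ^ 4 * (c4 + c5 * y + c6 * y ^ 2 + c7 * y ^ 3)))
      (w ^ 3 * e * (2 - (1 + y) * (A + h * y ^ 2 + H * y ^ 3)))
    rw [abs_neg, abs_mul (y ^ 4), abs_of_nonneg hy4] at t1
    have t2 : y ^ 4 * |c4 + c5 * y + c6 * y ^ 2 + c7 * y ^ 3|
        ≤ y ^ 4 * (|c4| + |c5| + |c6| + |c7|) := mul_le_mul_of_nonneg_left hbr hy4
    have t3 : |w ^ 3 * e * (2 - (1 + y) * (A + h * y ^ 2 + H * y ^ 3))|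
        ≤ (B * (20736 * y ^ 4)) * (2 + 2 * (|A| + |h| + |H|)) := by
      rw [abs_mul, abs_mul, abs_of_nonneg hw3]
      apply mul_le_mul _ hfac (abs_nonneg _) (by positivity)
      calc w ^ 3 * |e| ≤ 1 * |e| := mul_le_mul_of_nonneg_right hw3' (abs_nonneg _)
        _ = |e| := one_mul _
        _ ≤ _ := heb
    calc _ ≤ _ := t1
      _ ≤ y ^ 4 * (|c4| + |c5| + |c6| + |c7|)
          + (B * (20736 * y ^ 4)) * (2 + 2 * (|A| + |h| + |H|)) := add_le_add t2 t3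
      _ = _ := by ring
  have hFb : |F| ≤ 8 * (y ^ 4 * ((|c4| + |c5| + |c6| + |c7|)
      + B * 20736 * (2 + 2 * (|A| + |h| + |H|)))) := by
    rw [abs_mul, abs_of_nonneg hw3] at hwF
    have : 1 / 8 * |F| ≤ w ^ 3 * |F| := mul_le_mul_of_nonneg_right hw38 (abs_nonneg _)
    linarith
  have hQpos : 0 < Q := by linarith
  have hG : Gf y l - (A + h * y ^ 2 + H * y ^ 3) = F / ((1 + y) * Q) := by
    have : Gf y l = 2 / (1 + y) * (1 - 1 / Q) := rfl
    rw [this, hF]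
    have h1 : (1 : ℝ) + y ≠ 0 := by positivity
    field_simp
  rw [hG, abs_div, abs_of_pos (show 0 < (1 + y) * Q by positivity)]
  calc |F| / ((1 + y) * Q) ≤ |F| := by
        apply div_le_self (abs_nonneg _)
        nlinarith
    _ ≤ _ := hFb
    _ = _ := by ring

end QR
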