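import Pool.Agent.Helper88.QR.StmtsB

/-!
# The contours of the trees cover all corners exactly once (row B09)
-/

namespace QRB

open QR Classical

theorem st_B09 : ST_B09 := by
  intro C F _ τ α lab fc O T hcyc hex hT hfc g
  rw [Finset.sum_sigma']
  symm
  refine Finset.sum_bij (fun x _ => (τ ^ x.2) x.1) ?_ ?_ ?_ ?_
  · intro x _
    exact Finset.mem_univ _
  · -- injectivity
    have key : ∀ (b b' : C) (i i' : ℕ), fc b = O → fc b' = O → 1 ≤ i → i < i' →
        i' < 2 * (T b').edges + 2 → (τ ^ i) b = (τ ^ i') b' → False := by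
      intro b b' i i' hb hb' hi hii hi' h
      have h1 : (τ ^ i') b' = (τ ^ i) ((τ ^ (i' - i)) b') := by
        rw [← Equiv.Perm.mul_apply, ← pow_add]
        congr 2
        omega
      rw [h1] at h
      have h2 : b = (τ ^ (i' - i)) b' := (τ ^ i).injective h
      apply hT.inner b' hb' (i' - i) (by omega) (by omega)
      rw [← h2]
      exact hb
    rintro ⟨b, i⟩ hx ⟨b', i'⟩ hx' h
    simp only [Finset.mem_sigma, Finset.mem_filter, Finset.mem_univ, true_and,
      Finset.mem_Ico] at hx hx'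
    simp only at h
    rcases lt_trichotomy i i' with hlt | heq | hgt
    · exact (key b b' i i' hx.1 hx'.1 hx.2.1 hlt hx'.2.2 h).elim
    · subst heq
      have : b = b' := (τ ^ i).injective h
      subst this
      rfl
    · exact (key b' b i' i hx'.1 hx.1 hx'.2.1 hgt hx.2.2 h.symm).elim
  · -- surjectivity
    intro c _
    obtain ⟨b0, hb0⟩ := hex
    have hP : ∃ k : ℕ, 1 ≤ k ∧ ∃ b, fc b = O ∧ (τ ^ k) b = c := by
      obtain ⟨i, hi0, _, hi⟩ := (hcyc b0 c).exists_pow_eq''
      exact ⟨i, hi0, b0, hb0, hi⟩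
    obtain ⟨hk1, b, hb, hbc⟩ := Nat.find_spec hP
    set k := Nat.find hP with hk
    refine ⟨⟨b, k⟩, ?_, hbc⟩
    simp only [Finset.mem_sigma, Finset.mem_filter, Finset.mem_univ, true_and, Finset.mem_Ico]
    refine ⟨hb, hk1, ?_⟩
    by_contra hcon
    have hlt : 2 * (T b).edges + 1 < k := by omega
    have hmin := Nat.find_min hP (m := k - (2 * (T b).edges + 1)) (by omega)
    apply hmin
    refine ⟨by omega, α b, by rw [hfc, hb], ?_⟩
    rw [hT.nx b hb, ← Equiv.Perm.mul_apply, ← pow_add, ← hbc]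
    congr 2
    omega
  · intro x _
    rfl

end QRB
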