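import Pool.Agent.Helper88.QR.StmtsB

/-!
# The outer down darts in terms of the boundary walk (row B17)
-/

namespace QR79B

open QR QRB Classical

theorem zpow_eq_iff {D : Type} (f : Equiv.Perm D) (o : D) (i j : ℤ) :
    (f ^ i) o = (f ^ j) o ↔ ((Function.minimalPeriod f o : ℕ) : ℤ) ∣ i - j := by
  have h : (f ^ i) o = (f ^ j) o ↔ (f ^ (i - j)) • o = o := by
    have e1 : (f ^ i) o = (f ^ j) ((f ^ (i - j)) o) := by
      rw [← Equiv.Perm.mul_apply, ← zpow_add]
      congr 2
      ring
    rw [e1]
    constructor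
    · intro h
      exact (f ^ j).injective h
    · intro h
      have h' : (f ^ (i - j)) o = o := h
      rw [h']
  rw [h]
  exact MulAction.zpow_smul_eq_iff_minimalPeriod_dvd

theorem card_sameCycle {D : Type} [Finite D] (f : Equiv.Perm D) (o : D) :
    Nat.card {d : D // f.SameCycle o d} = Function.minimalPeriod f o := by
  have hpos : 0 < Function.minimalPeriod f o :=
    Function.minimalPeriod_pos_of_mem_periodicPts (f.injective.mem_periodicPts o)
  set n := Function.minimalPeriod f o with hn
  let g : Fin n → {d : D // f.SameCycle o d} :=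
    fun i => ⟨(f ^ ((i : ℕ) : ℤ)) o, ⟨(i : ℕ), rfl⟩⟩
  have hg : Function.Bijective g := by
    constructor
    · intro i j h
      have h1 : (f ^ ((i : ℕ) : ℤ)) o = (f ^ ((j : ℕ) : ℤ)) o := congrArg Subtype.val h
      rw [zpow_eq_iff, ← hn] at h1
      have hi := i.2
      have hj := j.2
      apply Fin.ext
      obtain ⟨k, hk⟩ := h1
      have hk0 : k = 0 := by
        by_contra hne
        rcases lt_or_gt_of_ne hne with h2 | h2
        · have : (n : ℤ) * k ≤ -(n : ℤ) := by nlinarith
          omega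
        · have : (n : ℤ) ≤ (n : ℤ) * k := by nlinarith
          omega
      rw [hk0] at hk
      omega
    · rintro ⟨d, k, hk⟩
      have hn0 : (0 : ℤ) < n := by exact_mod_cast hpos
      refine ⟨⟨(k % n).toNat, ?_⟩, ?_⟩
      · have h1 := Int.emod_lt_of_pos k hn0
        have h2 := Int.emod_nonneg k hn0.ne'
        omega
      · apply Subtype.ext
        show (f ^ (((k % n).toNat : ℕ) : ℤ)) o = d
        rw [Int.toNat_of_nonneg (Int.emod_nonneg k hn0.ne'), ← hk, zpow_eq_iff, ← hn]
        exact ⟨-(k / n), by have := Int.emod_add_mul_ediv k n; linarith⟩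
  rw [← Nat.card_eq_of_bijective g hg, Nat.card_fin]

end QR79B

namespace QRB

open QR QR79B Classical

theorem st_B17 : ST_B17 := by
  intro D _ m o P lam hL hdeg hP G
  have hper : Function.minimalPeriod m.face o = 2 * P := by
    rw [← card_sameCycle]
    exact hdeg
  have hdes : ∀ i : ℤ, ((lam ((m.face ^ (i + 1)) o) : ℤ) = lam ((m.face ^ i) o) - 1) ↔
      Des m lam ((m.face ^ i) o) := by
    intro i
    have h1 : (m.face ^ (i + 1)) o = m.rot (m.opp ((m.face ^ i) o)) := by
      rw [add_comm, zpow_add, zpow_one, Equiv.Perm.mul_apply]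
      rfl
    rw [h1, hL.rot]
    unfold Des
    constructor
    · intro h
      have : ((lam (m.opp ((m.face ^ i) o)) + 1 : ℕ) : ℤ) = lam ((m.face ^ i) o) := by
        push_cast
        linarith
      exact_mod_cast this
    · intro h
      rw [← h]
      push_cast
      ring
  refine Finset.sum_bij (fun i hi => ⟨(m.face ^ i) o, (hdes i).1 ?_⟩) ?_ ?_ ?_ ?_
  · unfold dn at hi
    exact (Finset.mem_filter.mp hi).2
  · intro i hi
    rw [Finset.mem_filter]
    refine ⟨Finset.mem_univ _, ?_⟩
    exact Quotient.sound (Equiv.Perm.SameCycle.symm ⟨i, rfl⟩)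
  · intro i hi j hj h
    unfold dn at hi hj
    have hi' := Finset.mem_Ico.mp (Finset.mem_filter.mp hi).1
    have hj' := Finset.mem_Ico.mp (Finset.mem_filter.mp hj).1
    have h1 : (m.face ^ i) o = (m.face ^ j) o := congrArg Subtype.val h
    rw [zpow_eq_iff, hper] at h1
    obtain ⟨k, hk⟩ := h1
    have hP' : (0 : ℤ) < ((2 * P : ℕ) : ℤ) := by positivity
    have hk0 : k = 0 := by
      by_contra hne
      rcases lt_or_gt_of_ne hne with h2 | h2
      · have : ((2 * P : ℕ) : ℤ) * k ≤ -((2 * P : ℕ) : ℤ) := by nlinarith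
        push_cast at *
        omega
      · have : ((2 * P : ℕ) : ℤ) ≤ ((2 * P : ℕ) : ℤ) * k := by nlinarith
        push_cast at *
        omega
    rw [hk0] at hk
    omega
  · intro c hc
    rw [Finset.mem_filter] at hc
    have hcyc : m.face.SameCycle o c.1 := (Quotient.exact hc.2).symm
    obtain ⟨k, hk⟩ := hcyc
    have hP' : (0 : ℤ) < ((2 * P : ℕ) : ℤ) := by positivity
    have hmod : (m.face ^ (k % ((2 * P : ℕ) : ℤ))) o = c.1 := by
      rw [← hk, zpow_eq_iff, hper]
      exact ⟨-(k / ((2 * P : ℕ) : ℤ)), by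
        have := Int.emod_add_mul_ediv k ((2 * P : ℕ) : ℤ)
        linarith⟩
    refine ⟨k % ((2 * P : ℕ) : ℤ), ?_, ?_⟩
    · unfold dn
      rw [Finset.mem_filter, Finset.mem_Ico]
      refine ⟨⟨Int.emod_nonneg _ hP'.ne', ?_⟩, ?_⟩
      · have := Int.emod_lt_of_pos k hP'
        push_cast at this ⊢
        exact this
      · rw [hdes, hmod]
        exact c.2
    · exact Subtype.ext hmod
  · intro i hi
    rfl

end QRB
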