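import Pool.Agent.Helper98.QR.StmtsE

/-!
# Row E02: finite balls of boundary graphs are represented by finite data
-/

namespace QR79

open QR

theorem near_mono {V : Type} (c : V → V → ℕ) {r s : ℕ} (h : r ≤ s) {x v : V}
    (hn : SPR.Near c r x v) : SPR.Near c s x v := by
  induction s with
  | zero => obtain rfl := Nat.le_zero.mp h; exact hn
  | succ s ih =>
    rcases Nat.lt_or_ge s r with h' | h'
    · have : r = s + 1 := by omega
      subst this; exact hn
    · exact Or.inl (ih h')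

theorem near_self {V : Type} (c : V → V → ℕ) (r : ℕ) (x : V) : SPR.Near c r x x :=
  near_mono c (Nat.zero_le r) (rfl : x = x)

theorem near_fin {V : Type} (c : V → V → ℕ) (hf : ∀ x, (Function.support (c x)).Finite) (r : ℕ)
    (x : V) : {v | SPR.Near c r x v}.Finite := by
  induction r with
  | zero =>
    have : {v | SPR.Near c 0 x v} ⊆ {x} := by
      intro v hv
      have hv' : x = v := hv
      simp [hv']
    exact (Set.finite_singleton x).subset this
  | succ r ih =>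
    have : {v | SPR.Near c (r + 1) x v} ⊆ {v | SPR.Near c r x v} ∪
        ⋃ z ∈ {v | SPR.Near c r x v}, Function.support (c z) := by
      intro v hv
      rcases (hv : SPR.Near c r x v ∨ ∃ z, SPR.Near c r x z ∧ c z v ≠ 0) with h | ⟨z, hz, hzv⟩
      · exact Or.inl h
      · refine Or.inr ?_
        simp only [Set.mem_iUnion]
        exact ⟨z, hz, hzv⟩
    exact (ih.union (ih.biUnion fun z _ => hf z)).subset this

/-- E02 -/
theorem st_E02 : ST_E02 := by
  classical
  intro ρ V G _ hf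
  have hB : Finite {v // SPR.Near G.c ρ (G.b 0) v} := near_fin G.c hf ρ (G.b 0)
  obtain ⟨k, ⟨e0⟩⟩ := Finite.exists_equiv_fin {v // SPR.Near G.c ρ (G.b 0) v}
  -- numbering
  let num : V → Fin (k + 1) := fun v =>
    if h : SPR.Near G.c ρ (G.b 0) v then Fin.castSucc (e0 ⟨v, h⟩) else Fin.last k
  have num_pos : ∀ v (h : SPR.Near G.c ρ (G.b 0) v), num v = Fin.castSucc (e0 ⟨v, h⟩) := by
    intro v h
    simp only [num, dif_pos h]
  have num_neg : ∀ v, ¬ SPR.Near G.c ρ (G.b 0) v → num v = Fin.last k := by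
    intro v h
    simp only [num, dif_neg h]
  have num_inj : ∀ u v, SPR.Near G.c ρ (G.b 0) u → num u = num v → u = v := by
    intro u v hu he
    rw [num_pos u hu] at he
    by_cases hv : SPR.Near G.c ρ (G.b 0) v
    · rw [num_pos v hv] at he
      have h2 := e0.injective (Fin.castSucc_injective k he)
      exact congrArg Subtype.val h2
    · rw [num_neg v hv] at he
      exact absurd he (Fin.castSucc_lt_last _).ne
  -- multigraph
  let cF : Fin (k + 1) → Fin (k + 1) → ℕ := fun i j =>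
    if h : i.1 < k ∧ j.1 < k then G.c (e0.symm ⟨i.1, h.1⟩).1 (e0.symm ⟨j.1, h.2⟩).1 else 0
  have cF_num : ∀ u v, SPR.Near G.c ρ (G.b 0) u → SPR.Near G.c ρ (G.b 0) v →
      cF (num u) (num v) = G.c u v := by
    intro u v hu hv
    have h1 : ((num u).1 < k ∧ (num v).1 < k) := by
      rw [num_pos u hu, num_pos v hv]
      exact ⟨(e0 ⟨u, hu⟩).2, (e0 ⟨v, hv⟩).2⟩
    have h2 : (⟨(num u).1, h1.1⟩ : Fin k) = e0 ⟨u, hu⟩ := by
      apply Fin.ext
      simp only [num_pos u hu, Fin.val_castSucc]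
    have h3 : (⟨(num v).1, h1.2⟩ : Fin k) = e0 ⟨v, hv⟩ := by
      apply Fin.ext
      simp only [num_pos v hv, Fin.val_castSucc]
    simp only [cF, dif_pos h1, h2, h3, Equiv.symm_apply_apply]
  have cF_ne : ∀ i j, cF i j ≠ 0 → ∃ w, SPR.Near G.c ρ (G.b 0) w ∧ num w = j := by
    intro i j hij
    by_cases h : i.1 < k ∧ j.1 < k
    · refine ⟨(e0.symm ⟨j.1, h.2⟩).1, (e0.symm ⟨j.1, h.2⟩).2, ?_⟩
      rw [num_pos _ (e0.symm ⟨j.1, h.2⟩).2]
      apply Fin.ext
      simp
    · simp only [cF, dif_neg h, ne_eq, not_true_eq_false] at hij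
  -- indices of the boundary vertices in the ball
  have hL : ∃ L : ℕ, ρ ≤ L ∧ ∀ u : {v // SPR.Near G.c ρ (G.b 0) v}, (u : V) ∈ Set.range G.b →
      ∃ j : ℤ, |j| ≤ (L : ℤ) ∧ G.b j = u := by
    have hj : ∀ u : {v // SPR.Near G.c ρ (G.b 0) v}, ∃ l : ℕ, (u : V) ∈ Set.range G.b →
        ∃ j : ℤ, |j| ≤ (l : ℤ) ∧ G.b j = u := by
      intro u
      by_cases hu : (u : V) ∈ Set.range G.b
      · obtain ⟨j, hj⟩ := hu
        exact ⟨j.natAbs, fun _ => ⟨j, by simp, hj⟩⟩
      · exact ⟨0, fun h => absurd h hu⟩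
    choose l hl using hj
    obtain ⟨M, hM⟩ := (Set.finite_range l).bddAbove
    refine ⟨max ρ M, le_max_left _ _, fun u hu => ?_⟩
    obtain ⟨j, h1, h2⟩ := hl u hu
    refine ⟨j, h1.trans ?_, h2⟩
    have : l u ≤ M := hM ⟨u, rfl⟩
    exact_mod_cast this.trans (le_max_right _ _)
  obtain ⟨L, hρL, hL⟩ := hL
  let F : FBd := ⟨k, L, cF, fun t => num (G.b ((t.1 : ℤ) - L))⟩
  have Fc : F.G.c = cF := rfl
  have Fb : ∀ i : ℤ, |i| ≤ (L : ℤ) → F.G.b i = num (G.b i) := by
    intro i hi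
    have h' := abs_le.mp hi
    have h0 : (((i + (L : ℤ)).toNat : ℕ) : ℤ) - L = i := by omega
    show (if h : |i| ≤ (L : ℤ) then num (G.b ((((i + (L : ℤ)).toNat : ℕ) : ℤ) - L))
      else num (G.b (((L : ℕ) : ℤ) - L))) = num (G.b i)
    rw [dif_pos hi, h0]
  have Fb' : ∀ i : ℤ, ∃ j : ℤ, F.G.b i = num (G.b j) := by
    intro i
    by_cases hi : |i| ≤ (L : ℤ)
    · exact ⟨i, Fb i hi⟩
    · refine ⟨((L : ℕ) : ℤ) - L, ?_⟩
      show (if h : |i| ≤ (L : ℤ) then num (G.b ((((i + (L : ℤ)).toNat : ℕ) : ℤ) - L))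
        else num (G.b (((L : ℕ) : ℤ) - L))) = _
      rw [dif_neg hi]
  have Fb0 : F.G.b 0 = num (G.b 0) := Fb 0 (by simp)
  -- the balls
  have ball : ∀ r, r ≤ ρ → ∀ v, SPR.Near cF r (num (G.b 0)) v ↔
      ∃ u, SPR.Near G.c r (G.b 0) u ∧ num u = v := by
    intro r
    induction r with
    | zero =>
      intro _ v
      constructor
      · intro h
        exact ⟨G.b 0, rfl, h⟩
      · rintro ⟨u, hu, rfl⟩
        have hu' : G.b 0 = u := hu
        subst hu'
        exact near_self _ _ _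
    | succ r ih =>
      intro hr v
      have ih' := ih (by omega)
      constructor
      · intro h
        rcases (h : SPR.Near cF r (num (G.b 0)) v ∨ ∃ z, SPR.Near cF r (num (G.b 0)) z ∧ cF z v ≠ 0)
          with h | ⟨z, hz, hzv⟩
        · obtain ⟨u, hu, huv⟩ := (ih' v).mp h
          exact ⟨u, Or.inl hu, huv⟩
        · obtain ⟨u, hu, rfl⟩ := (ih' z).mp hz
          obtain ⟨w, hw, rfl⟩ := cF_ne _ _ hzv
          rw [cF_num u w (near_mono _ (by omega) hu) hw] at hzv
          exact ⟨w, Or.inr ⟨u, hu, hzv⟩, rfl⟩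
      · rintro ⟨u, hu, rfl⟩
        have hu2 : SPR.Near G.c ρ (G.b 0) u := near_mono _ hr hu
        rcases (hu : SPR.Near G.c r (G.b 0) u ∨ ∃ z, SPR.Near G.c r (G.b 0) z ∧ G.c z u ≠ 0)
          with h | ⟨z, hz, hzv⟩
        · exact Or.inl ((ih' _).mpr ⟨u, h, rfl⟩)
        · refine Or.inr ⟨num z, (ih' _).mpr ⟨z, hz, rfl⟩, ?_⟩
          rw [cF_num z u (near_mono _ (by omega) hz) hu2]
          exact hzv
  have hball : ∀ v, SPR.Near F.G.c ρ (F.G.b 0) v ↔ ∃ u, SPR.Near G.c ρ (G.b 0) u ∧ num u = v := by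
    intro v
    rw [Fc, Fb0]
    exact ball ρ le_rfl v
  refine ⟨F, ?_, ?_⟩
  · let f : {v // SPR.Near G.c ρ (G.b 0) v} → {v // SPR.Near F.G.c ρ (F.G.b 0) v} :=
      fun u => ⟨num u.1, (hball _).mpr ⟨u.1, u.2, rfl⟩⟩
    have hf : Function.Bijective f := by
      constructor
      · intro u v huv
        exact Subtype.ext (num_inj u.1 v.1 u.2 (congrArg Subtype.val huv))
      · rintro ⟨v, hv⟩
        obtain ⟨u, hu, huv⟩ := (hball v).mp hv
        exact ⟨⟨u, hu⟩, Subtype.ext huv⟩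
    refine ⟨Equiv.ofBijective f hf, ?_, ?_, ?_⟩
    · intro u v
      show G.c u.1 v.1 = cF (num u.1) (num v.1)
      rw [cF_num u.1 v.1 u.2 v.2]
    · intro u
      show u.1 ∈ Set.range G.b ↔ num u.1 ∈ Set.range F.G.b
      constructor
      · intro hu
        obtain ⟨j, hj, hju⟩ := hL u hu
        exact ⟨j, by rw [Fb j hj, hju]⟩
      · rintro ⟨i, hi⟩
        obtain ⟨j, hj⟩ := Fb' i
        have : num u.1 = num (G.b j) := by rw [← hj]; exact hi.symm
        exact ⟨j, (num_inj _ _ u.2 this).symm⟩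
    · intro i h hi
      show num (G.b i) = F.G.b i
      rw [Fb i (hi.trans (by exact_mod_cast hρL))]
  · intro i hi
    rw [hball, Fb i (hi.trans (by exact_mod_cast hρL))]
    constructor
    · intro h
      exact ⟨G.b i, h, rfl⟩
    · rintro ⟨u, hu, huv⟩
      have := num_inj u (G.b i) hu huv
      rw [← this]; exact hu

end QR79
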