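import Pool.Agent.Helper98.QR.StmtsT

/-!
# Size of the constant in the asymptotics (row T11)
-/

namespace QR79T

theorem cb_succ (n : ℕ) : ((n : ℝ) + 1) * (Nat.centralBinom (n + 1) : ℝ)
    = 2 * (2 * n + 1) * Nat.centralBinom n := by
  have := Nat.succ_mul_centralBinom_succ n
  exact_mod_cast this

theorem lower (P : ℕ) (hP : 1 ≤ P) : (16 : ℝ) ^ P ≤ 4 * P * (Nat.centralBinom P : ℝ) ^ 2 := by
  induction P, hP using Nat.le_induction with
  | base =>
    have : Nat.centralBinom 1 = 2 := by decide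
    rw [this]
    norm_num
  | succ n hn ih =>
    have h1 := cb_succ n
    set a : ℝ := (Nat.centralBinom n : ℝ) with ha
    set b : ℝ := (Nat.centralBinom (n + 1) : ℝ) with hb
    have hn' : (1 : ℝ) ≤ n := by exact_mod_cast hn
    have h2 : ((n : ℝ) + 1) ^ 2 * b ^ 2 = 4 * (2 * n + 1) ^ 2 * a ^ 2 := by
      have : (((n : ℝ) + 1) * b) ^ 2 = (2 * (2 * n + 1) * a) ^ 2 := by rw [h1]
      linarith [this]
    have h3 : (0 : ℝ) < (n + 1) * n := by positivity
    have h4 : (16 : ℝ) ^ (n + 1) * ((n + 1) * n) ≤ 4 * (n + 1) * b ^ 2 * ((n + 1) * n) := by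
      have e1 : 4 * ((n : ℝ) + 1) * b ^ 2 * ((n + 1) * n) = 4 * n * (4 * (2 * n + 1) ^ 2 * a ^ 2) := by
        rw [← h2]
        ring
      rw [e1, pow_succ]
      have h5 : (16 : ℝ) ^ n * (16 * ((n + 1) * n)) ≤ 4 * n * a ^ 2 * (4 * (2 * n + 1) ^ 2) := by
        apply mul_le_mul ih _ (by positivity) (by positivity)
        nlinarith
      nlinarith [h5]
    have := le_of_mul_le_mul_right h4 h3
    push_cast
    exact this

theorem upper (P : ℕ) : (2 * P + 1) * (Nat.centralBinom P : ℝ) ^ 2 ≤ (16 : ℝ) ^ P := by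
  induction P with
  | zero => simp
  | succ n ih =>
    have h1 := cb_succ n
    set a : ℝ := (Nat.centralBinom n : ℝ) with ha
    set b : ℝ := (Nat.centralBinom (n + 1) : ℝ) with hb
    have hn' : (0 : ℝ) ≤ n := by positivity
    have h2 : ((n : ℝ) + 1) ^ 2 * b ^ 2 = 4 * (2 * n + 1) ^ 2 * a ^ 2 := by
      have : (((n : ℝ) + 1) * b) ^ 2 = (2 * (2 * n + 1) * a) ^ 2 := by rw [h1]
      linarith [this]
    have h3 : (0 : ℝ) < (n + 1) ^ 2 := by positivity
    have h4 : (2 * ((n : ℝ) + 1) + 1) * b ^ 2 * (n + 1) ^ 2 ≤ 16 ^ (n + 1) * (n + 1) ^ 2 := by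
      have e1 : (2 * ((n : ℝ) + 1) + 1) * b ^ 2 * (n + 1) ^ 2
          = ((2 * n + 1) * a ^ 2) * (4 * (2 * n + 3) * (2 * n + 1)) := by
        have : (2 * ((n : ℝ) + 1) + 1) * b ^ 2 * (n + 1) ^ 2
          = (2 * n + 3) * (((n : ℝ) + 1) ^ 2 * b ^ 2) := by ring
        rw [this, h2]
        ring
      have e2 : (16 : ℝ) ^ (n + 1) = 16 ^ n * 16 := pow_succ _ _
      rw [e1, e2]
      have h5 : ((2 * n + 1) * a ^ 2) * (4 * (2 * n + 3) * (2 * n + 1))
          ≤ (16 : ℝ) ^ n * (16 * (n + 1) ^ 2) := by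
        apply mul_le_mul ih _ (by positivity) (by positivity)
        nlinarith
      linarith [h5]
    have := le_of_mul_le_mul_right h4 h3
    push_cast
    exact this

end QR79T

namespace QR

open QR79T

theorem st_T11 : ST_T11 := by
  intro P hP
  have hP' : (1 : ℝ) ≤ P := by exact_mod_cast hP
  have hPpos : (0 : ℝ) < P := by linarith
  have hlo := lower P hP
  have hup := upper P
  have hc : ((2 * P).choose P : ℝ) = (Nat.centralBinom P : ℝ) := by
    rw [Nat.centralBinom_eq_two_mul_choose]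
  unfold cP
  rw [hc]
  set c : ℝ := (Nat.centralBinom P : ℝ) with hcdef
  have hcpos : 0 ≤ c := by positivity
  set s : ℝ := Real.sqrt P with hs
  have hs2 : s ^ 2 = P := Real.sq_sqrt hPpos.le
  have hspos : 0 < s := Real.sqrt_pos.mpr hPpos
  set r : ℝ := Real.sqrt Real.pi with hr
  have hr2 : r ^ 2 = Real.pi := Real.sq_sqrt Real.pi_pos.le
  have hrpos : 0 < r := Real.sqrt_pos.mpr Real.pi_pos
  have hr1 : 1 ≤ r := by
    have := Real.pi_gt_three
    nlinarith
  have hr2' : r ≤ 2 := by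
    have := Real.pi_le_four
    nlinarith
  have h8 : (8 : ℝ) ^ P = 4 ^ P * 2 ^ P := by
    rw [← mul_pow]
    norm_num
  have h16 : (16 : ℝ) ^ P = (4 ^ P) ^ 2 := by
    rw [← pow_mul, mul_comm P 2, pow_mul]
    norm_num
  set F : ℝ := 4 ^ P with hF
  have hFpos : 0 < F := by positivity
  set T : ℝ := 2 ^ P with hT
  have hTpos : 0 < T := by positivity
  rw [h16] at hlo hup
  -- F s <= 2 c P
  have k1 : F * s ≤ 2 * c * P := by
    apply le_of_sq_le_sq _ (by positivity)
    have : (F * s) ^ 2 = F ^ 2 * P := by rw [mul_pow, hs2]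
    rw [this]
    nlinarith
  have k2 : c * P ≤ F * s := by
    apply le_of_sq_le_sq _ (by positivity)
    have : (F * s) ^ 2 = F ^ 2 * P := by rw [mul_pow, hs2]
    rw [this]
    have h1 : P * c ^ 2 ≤ F ^ 2 := by nlinarith [sq_nonneg c]
    nlinarith
  rw [h8]
  constructor
  · rw [div_le_div_iff₀ (by norm_num) (by positivity)]
    have h1 : F * s * r ≤ 2 * c * P * 2 := by
      apply mul_le_mul k1 hr2' hrpos.le (by positivity)
    nlinarith [mul_le_mul_of_nonneg_left h1 hTpos.le]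
  · rw [div_le_iff₀ (by positivity)]
    have h1 : c * P * 1 ≤ F * s * (2 * r) := by
      apply mul_le_mul k2 (by linarith) (by norm_num) (by positivity)
    nlinarith [mul_le_mul_of_nonneg_left h1 hTpos.le]

end QR
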